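import Pool.Agent.helper79.ND.KCOa

/-!
# Row nd:KCO (MP_baa4d7_al), part 2
-/

set_option autoImplicit false

namespace Pool.Agent.ND

variable {X A : Type} [Group A] {K : Subgroup A} {act : A → X → X} {r : X → X → Prop} {b : ℕ}
  {I J : Type} {cl : X → I} {θ : I → X} {f : J → I} {y : J → X} {s : I → ℕ} {Ψ : Type} {w : Ψ → ℤ} {D : Ψ → X → X → ℤ}

theorem KCO_clr (hd : KCO_Dat K act r cl θ f y s) (h : Acn K act r b) {x x' : X} (e : r x x') : cl x = cl x' :=
  (hd.cle _ _).2 ⟨1, by rw [h.one]; exact e⟩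

theorem KCO_cla (hd : KCO_Dat K act r cl θ f y s) (h : Acn K act r b) (t : A) (x : X) : cl (act t x) = cl x :=
  ((hd.cle _ _).2 ⟨t, h.eqv.refl _⟩).symm

theorem KCO_cly (hd : KCO_Dat K act r cl θ f y s) (h : Acn K act r b) (j : J) : cl (y j) = f j := by
  rw [← KCO_clr hd h (hd.ry j), hd.clθ]

theorem KCO_zero (hS : Sys K act r w D) (h : Acn K act r b) (ψ : Ψ) (x : X) : D ψ x x = 0 := by
  have e := hS.ad ψ x x x (h.eqv.refl x) (h.eqv.refl x)
  linarith

/-- the values at a fixed point -/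
theorem KCO_val (hd : KCO_Dat K act r cl θ f y s) (h : Acn K act r b) (hS : Sys K act r w D) (i : I) (z : X) (hz : r (θ i) z) :
    (z = θ i) ∨ ∃ j, f j = i ∧ (∃ t, act t z = y j) ∧ ∀ ψ, D ψ (θ i) z = D ψ (θ (f j)) (y j) := by
  have hci : cl z = i := by rw [← KCO_clr hd h hz, hd.clθ]
  rcases hd.cov z with ⟨t, ht⟩ | ⟨j, t, ht⟩
  · left
    rw [hci] at ht
    have e1 : act t⁻¹ (θ i) = z := KCO_inv h ht
    have e2 := hd.fixθ i t⁻¹ (by rw [e1]; exact hz)
    rw [← e1]; exact e2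
  · right
    have e0 : f j = i := by
      rw [← KCO_cly hd h j, ← ht, KCO_cla hd h, hci]
    refine ⟨j, e0, ⟨t, ht⟩, fun ψ => ?_⟩
    have e1 : r (act t (θ i)) (y j) := by
      rw [← ht]; exact h.pres t _ _ hz
    have e2 : r (θ i) (y j) := by
      have := hd.ry j
      rwa [e0] at this
    have e3 := hd.fixθ i t (h.eqv.trans e2 (h.eqv.symm e1))
    have e4 := hS.eq ψ t (θ i) z hz
    rw [← e4, e3, ht, e0]

theorem KCO_red (hd : KCO_Dat K act r cl θ f y s) (h : Acn K act r b) (hS : Sys K act r w D) (x x' : X) (hx : r x x') :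
    ∃ t, r (θ (cl x)) (act t x) ∧ r (θ (cl x)) (act t x') ∧
      ∀ ψ, D ψ x x' = D ψ (θ (cl x)) (act t x') - D ψ (θ (cl x)) (act t x) := by
  have e1 : cl x = cl (θ (cl x)) := (hd.clθ (cl x)).symm
  obtain ⟨t, ht⟩ := (hd.cle _ _).1 e1
  have e2 : r (θ (cl x)) (act t x) := h.eqv.symm ht
  have e3 : r (act t x) (act t x') := h.pres t _ _ hx
  refine ⟨t, e2, h.eqv.trans e2 e3, fun ψ => ?_⟩
  have e4 := hS.ad ψ _ _ _ e2 e3
  have e5 := hS.eq ψ t x x' hx
  linarith

open Classical in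
theorem KCO_cnt (B : Type) [Fintype B] (p : B → Prop) : (∑ t, if p t then (1 : ℤ) else 0) = (Nat.card {t // p t} : ℤ) := by
  rw [Finset.sum_boole, Nat.card_eq_fintype_card, Fintype.card_subtype]

open Classical in
theorem KCO_gram [Finite A] (hd : KCO_Dat K act r cl θ f y s) (h : Acn K act r b) (hS : Sys K act r w D) (j j' : J) :
    ∑ᶠ ψ, D ψ (θ (f j)) (y j) * D ψ (θ (f j')) (y j') = if f j = f j' then (s (f j) : ℤ) + (if j = j' then 1 else 0) else 0 := by
  have := Fintype.ofFinite A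
  have hK : (0 : ℤ) < (Nat.card K : ℤ) := by exact_mod_cast (Nat.card_pos : 0 < Nat.card K)
  have h0 := hS.gr (θ (f j)) (y j) (θ (f j')) (y j') (hd.ry j) (hd.ry j')
  have h1 : ∀ t : A, ((if act t (θ (f j')) = θ (f j) then (1 : ℤ) else 0) - (if act t (θ (f j')) = y j then 1 else 0) -
      (if act t (y j') = θ (f j) then 1 else 0) + (if act t (y j') = y j then 1 else 0)) =
      (if act t (θ (f j')) = θ (f j) then (1 : ℤ) else 0) + (if act t (y j') = y j then 1 else 0) := by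
    intro t
    have e1 : act t (θ (f j')) ≠ y j := fun e => hd.ne j (f j') t⁻¹ (KCO_inv h e)
    have e2 : act t (y j') ≠ θ (f j) := hd.ne j' (f j) t
    rw [if_neg e1, if_neg e2]
    ring
  rw [finsum_congr h1, finsum_eq_sum_of_fintype (fun t : A => (if act t (θ (f j')) = θ (f j) then (1 : ℤ) else 0) +
    (if act t (y j') = y j then 1 else 0)), Finset.sum_add_distrib, KCO_cnt, KCO_cnt] at h0
  apply mul_left_cancel₀ hK.ne'
  rw [h0]
  by_cases hf : f j = f j'
  · rw [if_pos hf, ← hf, hd.cs]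
    by_cases hj : j = j'
    · rw [if_pos hj, ← hj]
      have e1 : Nat.card {t : A // act t (y j) = y j} = Nat.card K := by
        refine Nat.card_congr (Equiv.subtypeEquivRight fun t => ?_)
        exact ⟨fun e => hd.free j t e, fun e => h.triv t e _⟩
      rw [e1]
      push_cast
      ring
    · rw [if_neg hj]
      have e1 : Nat.card {t : A // act t (y j') = y j} = 0 := by
        have : IsEmpty {t : A // act t (y j') = y j} := ⟨fun p => hj (hd.inj _ _ _ p.2).symm⟩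
        exact Nat.card_of_isEmpty
      rw [e1]
      push_cast
      ring
  · rw [if_neg hf]
    have e1 : Nat.card {t : A // act t (y j') = y j} = 0 := by
      have : IsEmpty {t : A // act t (y j') = y j} := ⟨fun p => hf (by rw [hd.inj _ _ _ p.2])⟩
      exact Nat.card_of_isEmpty
    have e2 : Nat.card {t : A // act t (θ (f j')) = θ (f j)} = 0 := by
      have : IsEmpty {t : A // act t (θ (f j')) = θ (f j)} := ⟨fun p => hf (by
        have e3 := congrArg cl p.2
        rw [KCO_cla hd h, hd.clθ, hd.clθ] at e3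
        exact e3.symm)⟩
      exact Nat.card_of_isEmpty
    rw [e1, e2]
    simp

open Classical in
/-- the function of an orbit -/
noncomputable def KCO_T (act : A → X → X) (r : X → X → Prop) (y : J → X) (j : J) : X → X → ℤ := fun x x' =>
  if r x x' then (if ∃ t, act t x' = y j then 1 else 0) - (if ∃ t, act t x = y j then 1 else 0) else 0

open Classical in
/-- the function of a class -/
noncomputable def KCO_U (act : A → X → X) (r : X → X → Prop) (cl : X → I) (θ : I → X) (i : I) : X → X → ℤ := fun x x' =>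
  if r x x' ∧ cl x = i then (if ∃ t, act t x' = θ i then 0 else 1) - (if ∃ t, act t x = θ i then 0 else 1) else 0

theorem KCO_orb (h : Acn K act r b) (t : A) (x z : X) : (∃ τ, act τ (act t x) = z) ↔ ∃ τ, act τ x = z := by
  constructor
  · rintro ⟨τ, hτ⟩
    exact ⟨τ * t, by rw [h.mul, hτ]⟩
  · rintro ⟨τ, hτ⟩
    exact ⟨τ * t⁻¹, by rw [← h.mul, inv_mul_cancel_right, hτ]⟩

open Classical in
theorem KCO_Da (hd : KCO_Dat K act r cl θ f y s) (h : Acn K act r b) (hS : Sys K act r w D) (ψ : Ψ) (j0 : J) (e : ℤ)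
    (hv : ∀ j, D ψ (θ (f j)) (y j) = -e * (if j = j0 then 1 else 0)) : D ψ = fun x x' => -e * KCO_T act r y j0 x x' := by
  have hz : ∀ i z, r (θ i) z → D ψ (θ i) z = -e * (if ∃ t, act t z = y j0 then 1 else 0) := by
    intro i z hz
    rcases KCO_val hd h hS i z hz with e1 | ⟨j, e1, e2, e3⟩
    · have e4 : ¬ ∃ t, act t z = y j0 := by
        rintro ⟨t, ht⟩
        rw [e1] at ht
        exact hd.ne j0 i t⁻¹ (KCO_inv h ht)
      rw [if_neg e4, e1, KCO_zero hS h]
      ring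
    · rw [e3, hv]
      have e4 : (∃ t, act t z = y j0) ↔ j = j0 := by
        obtain ⟨t, ht⟩ := e2
        constructor
        · rintro ⟨t', ht'⟩
          refine hd.inj j j0 (t' * t⁻¹) ?_
          rw [h.mul, KCO_inv h ht, ht']
        · rintro rfl
          exact ⟨t, ht⟩
      by_cases hj : j = j0
      · rw [if_pos hj, if_pos (e4.2 hj)]
      · rw [if_neg hj, if_neg (fun hc => hj (e4.1 hc))]
  funext x x'
  by_cases hx : r x x'
  · obtain ⟨t, h1, h2, h3⟩ := KCO_red hd h hS x x' hx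
    rw [h3, hz _ _ h1, hz _ _ h2]
    unfold KCO_T
    rw [if_pos hx]
    simp only [KCO_orb h]
    ring
  · unfold KCO_T
    rw [hS.nr ψ x x' hx, if_neg hx, mul_zero]

open Classical in
theorem KCO_Dn (hd : KCO_Dat K act r cl θ f y s) (h : Acn K act r b) (hS : Sys K act r w D) (ψ : Ψ) (Yψ : I → ℤ)
    (hv : ∀ j, D ψ (θ (f j)) (y j) = Yψ (f j)) (x x' : X) : D ψ x x' = Yψ (cl x) * KCO_U act r cl θ (cl x) x x' := by
  have hz : ∀ i z, r (θ i) z → D ψ (θ i) z = Yψ i * (if ∃ t, act t z = θ i then 0 else 1) := by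
    intro i z hz
    rcases KCO_val hd h hS i z hz with e1 | ⟨j, e1, e2, e3⟩
    · have e4 : ∃ t, act t z = θ i := ⟨1, by rw [h.one, e1]⟩
      rw [if_pos e4, e1, KCO_zero hS h]
      ring
    · rw [e3, hv, e1]
      have e4 : ¬ ∃ t, act t z = θ i := by
        obtain ⟨t, ht⟩ := e2
        rintro ⟨t', ht'⟩
        refine hd.ne j i (t' * t⁻¹) ?_
        rw [h.mul, KCO_inv h ht, ht']
      rw [if_neg e4, mul_one]
  by_cases hx : r x x'
  · obtain ⟨t, h1, h2, h3⟩ := KCO_red hd h hS x x' hx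
    rw [h3, hz _ _ h1, hz _ _ h2]
    unfold KCO_U
    rw [if_pos (show r x x' ∧ cl x = cl x from ⟨hx, rfl⟩)]
    simp only [KCO_orb h]
    ring
  · unfold KCO_U
    rw [hS.nr ψ x x' hx, if_neg (show ¬ (r x x' ∧ cl x = cl x) from fun hc => hx hc.1), mul_zero]

open Classical in
theorem KCO_im [Fintype J] [Fintype Ψ] (a : J → Ψ) (ha : Function.Injective a) (g : Ψ → ℤ) :
    ∑ ψ, (if ∃ j, a j = ψ then g ψ else 0) = ∑ j, g (a j) := by
  rw [← Finset.sum_filter, ← Finset.sum_image (f := g) (s := Finset.univ) (g := a) (fun x _ y _ e => ha e)]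
  refine Finset.sum_congr ?_ fun _ _ => rfl
  ext ψ
  simp

open Classical in
/-- a sum of squares equal to `1` -/
theorem KCO_sq [Fintype I] (Y : I → ℤ) (h : ∑ i, Y i * Y i = 1) : ∃ i, (Y i = 1 ∨ Y i = -1) ∧ ∀ k, k ≠ i → Y k = 0 := by
  have hex : ∃ i, Y i ≠ 0 := by
    by_contra hc
    push Not at hc
    have : ∑ i, Y i * Y i = 0 := Finset.sum_eq_zero fun i _ => by rw [hc i, mul_zero]
    rw [this] at h
    exact absurd h (by norm_num)
  obtain ⟨i, hi⟩ := hex
  have h1 : 1 ≤ Y i * Y i := by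
    have := mul_self_pos.2 hi
    linarith
  rw [← Finset.add_sum_erase _ _ (Finset.mem_univ i)] at h
  have h2 : ∀ k ∈ Finset.univ.erase i, 0 ≤ Y k * Y k := fun k _ => mul_self_nonneg _
  have h3 : 0 ≤ ∑ k ∈ Finset.univ.erase i, Y k * Y k := Finset.sum_nonneg h2
  have h4 : ∑ k ∈ Finset.univ.erase i, Y k * Y k = 0 := by linarith
  have h5 : Y i * Y i = 1 := by linarith
  refine ⟨i, ?_, fun k hk => ?_⟩
  · exact mul_self_eq_one_iff.1 h5
  · have h6 := (Finset.sum_eq_zero_iff_of_nonneg h2).1 h4 k (Finset.mem_erase.2 ⟨hk, Finset.mem_univ _⟩)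
    exact mul_self_eq_zero.1 h6

open Classical in
/-- the counting -/
theorem KCO_count [Fintype I] [Fintype J] [Fintype Ψ] (s : I → ℕ) (Y : I → Ψ → ℤ) (a : J → Ψ) (ha : Function.Injective a)
    (hYa : ∀ i j, Y i (a j) = 0) (hYY : ∀ i, ∑ ψ, Y i ψ * Y i ψ = s i)
    (hnv : ∀ ψ, (∀ j, a j ≠ ψ) → ∃ i, Y i ψ ≠ 0) :
    Fintype.card Ψ ≤ ∑ i, s i + Fintype.card J ∧
    ((∀ ψ, (∀ j, a j ≠ ψ) → ∑ i, Y i ψ * Y i ψ ≤ 1) → Fintype.card Ψ = ∑ i, s i + Fintype.card J) ∧
    (Fintype.card Ψ = ∑ i, s i + Fintype.card J → (∀ ψ, (∀ j, a j ≠ ψ) → ∑ i, Y i ψ * Y i ψ = 1)) := by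
  have hN : ∀ ψ, 0 ≤ ∑ i, Y i ψ * Y i ψ := fun ψ => Finset.sum_nonneg fun i _ => mul_self_nonneg _
  have hN0 : ∀ j, ∑ i, Y i (a j) * Y i (a j) = 0 := fun j => Finset.sum_eq_zero fun i _ => by rw [hYa, mul_zero]
  have hN1 : ∀ ψ, (∀ j, a j ≠ ψ) → 1 ≤ ∑ i, Y i ψ * Y i ψ := by
    intro ψ hψ
    obtain ⟨i, hi⟩ := hnv ψ hψ
    have h1 : 0 < Y i ψ * Y i ψ := mul_self_pos.2 hi
    have h2 : Y i ψ * Y i ψ ≤ ∑ i, Y i ψ * Y i ψ :=
      Finset.single_le_sum (f := fun i => Y i ψ * Y i ψ) (fun k _ => mul_self_nonneg (Y k ψ)) (Finset.mem_univ i)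
    linarith
  have hS : ∑ ψ, ∑ i, Y i ψ * Y i ψ = ∑ i, (s i : ℤ) := by
    rw [Finset.sum_comm]
    exact Finset.sum_congr rfl fun i _ => hYY i
  have hI : ∑ ψ, (if ∃ j, a j = ψ then (1 : ℤ) else 0) = (Fintype.card J : ℤ) := by
    rw [KCO_im a ha (fun _ => 1)]
    simp
  have hC : ∑ _ψ : Ψ, (1 : ℤ) = (Fintype.card Ψ : ℤ) := by simp
  have hT : ∑ ψ, ((if ∃ j, a j = ψ then (1 : ℤ) else 0) + ∑ i, Y i ψ * Y i ψ - 1) =
      ((∑ i, s i + Fintype.card J : ℕ) : ℤ) - (Fintype.card Ψ : ℤ) := by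
    rw [Finset.sum_sub_distrib, Finset.sum_add_distrib, hI, hS, hC]
    push_cast
    ring
  have hpos : ∀ ψ ∈ (Finset.univ : Finset Ψ), (0 : ℤ) ≤ (if ∃ j, a j = ψ then (1 : ℤ) else 0) + ∑ i, Y i ψ * Y i ψ - 1 := by
    intro ψ _
    by_cases hψ : ∃ j, a j = ψ
    · rw [if_pos hψ]
      have := hN ψ
      linarith
    · rw [if_neg hψ]
      have := hN1 ψ (fun j e => hψ ⟨j, e⟩)
      linarith
  refine ⟨?_, ?_, ?_⟩
  · have h1 := Finset.sum_nonneg hpos
    rw [hT] at h1
    have h2 : (Fintype.card Ψ : ℤ) ≤ ((∑ i, s i + Fintype.card J : ℕ) : ℤ) := by linarith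
    exact_mod_cast h2
  · intro hle
    have h1 : ∑ ψ, ((if ∃ j, a j = ψ then (1 : ℤ) else 0) + ∑ i, Y i ψ * Y i ψ - 1) = 0 := by
      refine Finset.sum_eq_zero fun ψ _ => ?_
      by_cases hψ : ∃ j, a j = ψ
      · rw [if_pos hψ]
        obtain ⟨j, rfl⟩ := hψ
        rw [hN0]
        ring
      · rw [if_neg hψ]
        have e1 := hN1 ψ (fun j e => hψ ⟨j, e⟩)
        have e2 := hle ψ (fun j e => hψ ⟨j, e⟩)
        linarith
    rw [hT] at h1
    have h2 : (Fintype.card Ψ : ℤ) = ((∑ i, s i + Fintype.card J : ℕ) : ℤ) := by linarith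
    exact_mod_cast h2
  · intro hcard ψ hψ
    have h1 : ∑ ψ, ((if ∃ j, a j = ψ then (1 : ℤ) else 0) + ∑ i, Y i ψ * Y i ψ - 1) = 0 := by
      rw [hT, hcard]
      ring
    have h2 := (Finset.sum_eq_zero_iff_of_nonneg hpos).1 h1 ψ (Finset.mem_univ _)
    rw [if_neg (fun hc => by
      obtain ⟨j, hj⟩ := hc
      exact hψ j hj)] at h2
    linarith

/-- **Row KCO.** -/
theorem KCO (hKCH : KCH_stmt) : KCO_stmt := by
  classical
  intro X A _ _ _ K act r b h
  obtain ⟨I, J, cl, θ, f, y, s, hI, hJ, hd⟩ := KCO_data X A K act r b h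
  have := Fintype.ofFinite I
  have := Fintype.ofFinite J
  refine ⟨∑ i, s i + Fintype.card J, fun P => Nat.card {j // P (KCO_T act r y j)} +
    ∑ i, (if P (KCO_U act r cl θ i) then s i else 0), ?_⟩
  intro Ψ _ w D hS hnv
  have := Fintype.ofFinite Ψ
  obtain ⟨Y, ε, a, hε, ha, hv, hYa, hYY⟩ := hKCH Ψ I J f (fun i => (s i : ℤ)) (fun j ψ => D ψ (θ (f j)) (y j)) w hS.wp
    (fun i => by exact_mod_cast hd.s1 i) (fun j => hS.dg _ _ (hd.ry j)) (fun j k => KCO_gram hd h hS j k)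
    (fun i i' => by exact_mod_cast hd.big i i')
  have hYY' : ∀ i, ∑ ψ, Y i ψ * Y i ψ = (s i : ℤ) := by
    intro i
    have e := hYY i i
    rw [if_pos rfl, finsum_eq_sum_of_fintype] at e
    exact e
  have hDa : ∀ j0, D (a j0) = fun x x' => -ε (f j0) * KCO_T act r y j0 x x' := by
    intro j0
    refine KCO_Da hd h hS (a j0) j0 (ε (f j0)) fun j => ?_
    have e1 : D (a j0) (θ (f j)) (y j) = Y (f j) (a j0) - ε (f j) * (if a j0 = a j then 1 else 0) := hv j (a j0)
    rw [e1, hYa]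
    by_cases hj : j = j0
    · rw [if_pos hj, hj, if_pos rfl]
      ring
    · rw [if_neg hj, if_neg (fun e => hj (ha e).symm)]
      ring
  have hDn : ∀ ψ, (∀ j, a j ≠ ψ) → ∀ x x', D ψ x x' = Y (cl x) ψ * KCO_U act r cl θ (cl x) x x' := by
    intro ψ hψ x x'
    refine KCO_Dn hd h hS ψ (fun i => Y i ψ) (fun j => ?_) x x'
    have e1 : D ψ (θ (f j)) (y j) = Y (f j) ψ - ε (f j) * (if ψ = a j then 1 else 0) := hv j ψ
    rw [e1, if_neg (fun e => hψ j e.symm)]
    ring
  have hnv' : ∀ ψ, (∀ j, a j ≠ ψ) → ∃ i, Y i ψ ≠ 0 := by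
    intro ψ hψ
    obtain ⟨x, x', hx⟩ := hnv ψ
    refine ⟨cl x, fun e => hx ?_⟩
    rw [hDn ψ hψ, e, zero_mul]
  obtain ⟨hc1, hc2, hc3⟩ := KCO_count s Y a ha hYa hYY' hnv'
  have hjex : ∀ i, ∃ j, f j = i := by
    intro i
    have e1 := hd.big i i
    have e2 : 0 < Nat.card {j // f j = i} := by omega
    obtain ⟨⟨j, hj⟩⟩ := (Nat.card_pos_iff.1 e2).1
    exact ⟨j, hj⟩
  have hval : ∀ ψ, (∀ j, a j ≠ ψ) → ∀ j, D ψ (θ (f j)) (y j) = Y (f j) ψ := by
    intro ψ hψ j
    have e1 : D ψ (θ (f j)) (y j) = Y (f j) ψ - ε (f j) * (if ψ = a j then 1 else 0) := hv j ψ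
    rw [e1, if_neg (fun e => hψ j e.symm)]
    ring
  rw [Nat.card_eq_fintype_card]
  refine ⟨hc1, ?_, ?_⟩
  · intro q1 q2
    refine hc2 fun ψ hψ => ?_
    by_cases hz : ∃ i, Y i ψ ≠ 0
    · obtain ⟨i, hi⟩ := hz
      have huni : ∀ k, k ≠ i → Y k ψ * Y k ψ = 0 := by
        intro k hk
        by_contra hc
        have hk0 : Y k ψ ≠ 0 := fun e => hc (by rw [e, mul_zero])
        obtain ⟨j, hj⟩ := hjex i
        obtain ⟨j', hj'⟩ := hjex k
        obtain ⟨t, ht⟩ := q2 ψ (θ (f j)) (y j) (θ (f j')) (y j') (by rw [hval ψ hψ, hj]; exact hi) (by rw [hval ψ hψ, hj']; exact hk0)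
        have e1 := (hd.cle _ _).2 ⟨t, ht⟩
        rw [hd.clθ, hd.clθ, hj, hj'] at e1
        exact hk e1.symm
      rw [Finset.sum_eq_single i (fun k _ hk => huni k hk) (fun hc => absurd (Finset.mem_univ i) hc)]
      obtain ⟨j, hj⟩ := hjex i
      have e2 := q1 ψ (θ (f j)) (y j)
      rw [hval ψ hψ, hj] at e2
      have e3 := abs_le.1 e2
      nlinarith [e3.1, e3.2]
    · push Not at hz
      have e1 : ∑ i, Y i ψ * Y i ψ = 0 := Finset.sum_eq_zero fun i _ => by rw [hz i, mul_zero]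
      rw [e1]
      exact zero_le_one
  · intro hcard P hP
    have h1 := hc3 hcard
    have hPT : ∀ j, P (D (a j)) ↔ P (KCO_T act r y j) := by
      intro j
      rcases hε (f j) with e | e
      · have e1 : D (a j) = -KCO_T act r y j := by
          rw [hDa j, e]
          funext x x'
          show -1 * KCO_T act r y j x x' = -(KCO_T act r y j x x')
          ring
        rw [e1]
        exact hP _
      · have e1 : D (a j) = KCO_T act r y j := by
          rw [hDa j, e]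
          funext x x'
          show -(-1) * KCO_T act r y j x x' = KCO_T act r y j x x'
          ring
        rw [e1]
    have hPU : ∀ ψ, (∀ j, a j ≠ ψ) → (if P (D ψ) then (1 : ℤ) else 0) = ∑ i, Y i ψ * Y i ψ * (if P (KCO_U act r cl θ i) then 1 else 0) := by
      intro ψ hψ
      obtain ⟨i, hi, hi'⟩ := KCO_sq (fun i => Y i ψ) (h1 ψ hψ)
      have hsum : ∑ i, Y i ψ * Y i ψ * (if P (KCO_U act r cl θ i) then (1 : ℤ) else 0) = if P (KCO_U act r cl θ i) then 1 else 0 := by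
        rw [Finset.sum_eq_single i (fun k _ hk => by rw [hi' k hk, mul_zero, zero_mul]) (fun hc => absurd (Finset.mem_univ i) hc)]
        rcases hi with e | e
        · rw [e]; ring
        · rw [e]; ring
      rw [hsum]
      have hDU : ∀ x x', D ψ x x' = Y i ψ * KCO_U act r cl θ i x x' := by
        intro x x'
        rw [hDn ψ hψ]
        by_cases hx : cl x = i
        · rw [hx]
        · rw [hi' _ hx, zero_mul]
          unfold KCO_U
          rw [if_neg (fun hc => hx hc.2), mul_zero]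
      have hiff : P (D ψ) ↔ P (KCO_U act r cl θ i) := by
        rcases hi with e | e
        · have e1 : D ψ = KCO_U act r cl θ i := by
            funext x x'
            rw [hDU, e, one_mul]
          rw [e1]
        · have e1 : D ψ = -KCO_U act r cl θ i := by
            funext x x'
            rw [hDU, e]
            show -1 * KCO_U act r cl θ i x x' = -(KCO_U act r cl θ i x x')
            ring
          rw [e1]
          exact hP _
      by_cases hp : P (D ψ)
      · rw [if_pos hp, if_pos (hiff.1 hp)]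
      · rw [if_neg hp, if_neg (fun hc => hp (hiff.2 hc))]
    have hkey : ∀ ψ, (if P (D ψ) then (1 : ℤ) else 0) = (if ∃ j, a j = ψ then (if P (D ψ) then (1 : ℤ) else 0) else 0) +
        ∑ i, Y i ψ * Y i ψ * (if P (KCO_U act r cl θ i) then 1 else 0) := by
      intro ψ
      by_cases hψ : ∃ j, a j = ψ
      · rw [if_pos hψ]
        obtain ⟨j, rfl⟩ := hψ
        have e1 : ∑ i, Y i (a j) * Y i (a j) * (if P (KCO_U act r cl θ i) then (1 : ℤ) else 0) = 0 :=
          Finset.sum_eq_zero fun i _ => by rw [hYa, mul_zero, zero_mul]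
        rw [e1, add_zero]
      · rw [if_neg hψ, zero_add]
        exact hPU ψ (fun j e => hψ ⟨j, e⟩)
    have hfin : (Nat.card {ψ // P (D ψ)} : ℤ) = (Nat.card {j // P (KCO_T act r y j)} : ℤ) +
        ∑ i, (if P (KCO_U act r cl θ i) then (s i : ℤ) else 0) := by
      rw [← KCO_cnt Ψ, Finset.sum_congr rfl fun ψ _ => hkey ψ, Finset.sum_add_distrib, KCO_im a ha (fun ψ => if P (D ψ) then (1 : ℤ) else 0),
        ← KCO_cnt J, Finset.sum_comm]
      refine congrArg₂ _ (Finset.sum_congr rfl fun j _ => ?_) (Finset.sum_congr rfl fun i _ => ?_)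
      · by_cases hp : P (D (a j))
        · rw [if_pos hp, if_pos ((hPT j).1 hp)]
        · rw [if_neg hp, if_neg (fun hc => hp ((hPT j).2 hc))]
      · rw [← Finset.sum_mul, hYY' i]
        by_cases hp : P (KCO_U act r cl θ i)
        · rw [if_pos hp, if_pos hp, mul_one]
        · rw [if_neg hp, if_neg hp, mul_zero]
    have hfin' : (Nat.card {ψ // P (D ψ)} : ℤ) = ((Nat.card {j // P (KCO_T act r y j)} +
        ∑ i, (if P (KCO_U act r cl θ i) then s i else 0) : ℕ) : ℤ) := by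
      rw [hfin]
      push_cast
      rfl
    exact_mod_cast hfin'

end Pool.Agent.ND

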