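import Pool.Agent.helper37.ND.SpecC

/-!
# Row nd:KCO (MP_baa4d7_al), part 1: the data which do not depend on the functions
-/

set_option autoImplicit false

namespace Pool.Agent.ND

/-- the data which do not depend on `D` -/
structure KCO_Dat {X A : Type} [Group A] (K : Subgroup A) (act : A → X → X) (r : X → X → Prop) {I J : Type} (cl : X → I)
    (θ : I → X) (f : J → I) (y : J → X) (s : I → ℕ) : Prop where
  clθ : ∀ i, cl (θ i) = i
  cle : ∀ x x', cl x = cl x' ↔ ∃ t, r (act t x) x'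
  ry : ∀ j, r (θ (f j)) (y j)
  cov : ∀ x, (∃ t, act t x = θ (cl x)) ∨ ∃ j t, act t x = y j
  ne : ∀ j i t, act t (y j) ≠ θ i
  inj : ∀ j j' t, act t (y j) = y j' → j = j'
  free : ∀ j t, act t (y j) = y j → t ∈ K
  fixθ : ∀ i t, r (θ i) (act t (θ i)) → act t (θ i) = θ i
  cs : ∀ i, Nat.card {t : A // act t (θ i) = θ i} = s i * Nat.card K
  s1 : ∀ i, 1 ≤ s i
  big : ∀ i i', s i' + 3 ≤ Nat.card {j // f j = i}

theorem KCO_inv {X A : Type} [Group A] {K : Subgroup A} {act : A → X → X} {r : X → X → Prop} {b : ℕ} (h : Acn K act r b)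
    {t : A} {x y : X} (e : act t x = y) : act t⁻¹ y = x := by
  rw [← e, ← h.mul, inv_mul_cancel, h.one]

/-- the stabiliser -/
def KCO_st {X A : Type} [Group A] {K : Subgroup A} {act : A → X → X} {r : X → X → Prop} {b : ℕ} (h : Acn K act r b) (x : X) :
    Subgroup A where
  carrier := {t | act t x = x}
  one_mem' := h.one x
  mul_mem' := by
    intro s t hs ht
    show act (s * t) x = x
    have hs' : act s x = x := hs
    have ht' : act t x = x := ht
    rw [h.mul, ht', hs']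
  inv_mem' := by
    intro t ht
    exact KCO_inv h ht

/-- the fibre bound -/
theorem KCO_fib {X A : Type} [Finite X] [Group A] [Finite A] {K : Subgroup A} {act : A → X → X} {r : X → X → Prop} {b : ℕ}
    (h : Acn K act r b) (θ y0 : X) (h0 : r θ y0) :
    Nat.card {y // r θ y ∧ ∃ t, act t y0 = y} ≤ b := by
  have hK : 0 < Nat.card K := Nat.card_pos
  have h1 : Nat.card ({y // r θ y ∧ ∃ t, act t y0 = y} × K) ≤ Nat.card {t : A // r θ (act t θ)} := by
    have hex : ∀ p : {y // r θ y ∧ ∃ t, act t y0 = y}, ∃ t, act t y0 = p.1 := fun p => p.2.2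
    choose g hg using hex
    have hmem : ∀ p : {y // r θ y ∧ ∃ t, act t y0 = y}, ∀ k : K, r θ (act (g p * k) θ) := by
      intro p k
      have e1 : r (act (g p) θ) (act (g p) y0) := h.pres _ _ _ h0
      rw [hg p] at e1
      rw [h.mul, h.triv k.1 k.2]
      exact h.eqv.trans p.2.1 (h.eqv.symm e1)
    refine Nat.card_le_card_of_injective (fun q : {y // r θ y ∧ ∃ t, act t y0 = y} × K => (⟨g q.1 * q.2, hmem q.1 q.2⟩ : {t : A // r θ (act t θ)})) ?_
    rintro ⟨p, k⟩ ⟨p', k'⟩ e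
    have e1 : g p * (k : A) = g p' * (k' : A) := congrArg Subtype.val e
    have e2 : (p : X) = p' := by
      rw [← hg p, ← hg p']
      have e3 : act (g p * k) y0 = act (g p' * k') y0 := by rw [e1]
      rw [h.mul, h.mul, h.triv k.1 k.2, h.triv k'.1 k'.2] at e3
      exact e3
    have e4 : p = p' := Subtype.ext e2
    subst e4
    have e5 : (k : A) = k' := mul_left_cancel e1
    rw [Subtype.ext e5]
  rw [Nat.card_prod] at h1
  exact Nat.le_of_mul_le_mul_right (h1.trans (h.st θ)) hK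

theorem KCO_data (X A : Type) [Finite X] [Group A] [Finite A] (K : Subgroup A) (act : A → X → X) (r : X → X → Prop) (b : ℕ)
    (h : Acn K act r b) : ∃ (I J : Type) (cl : X → I) (θ : I → X) (f : J → I) (y : J → X) (s : I → ℕ), Finite I ∧ Finite J ∧
      KCO_Dat K act r cl θ f y s := by
  classical
  have hsy : ∀ {x y : X}, r x y → r y x := fun e => h.eqv.symm e
  have htr : ∀ {x y z : X}, r x y → r y z → r x z := fun e e' => h.eqv.trans e e'
  obtain ⟨S1, hS1⟩ : ∃ S1 : Setoid X, ∀ x y, S1.r x y ↔ ∃ t, r (act t x) y := by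
    refine ⟨⟨fun x y => ∃ t, r (act t x) y, ⟨?_, ?_, ?_⟩⟩, fun x y => Iff.rfl⟩
    · intro x
      exact ⟨1, by rw [h.one]; exact h.eqv.refl x⟩
    · rintro x y ⟨t, ht⟩
      refine ⟨t⁻¹, ?_⟩
      have e1 := h.pres t⁻¹ _ _ ht
      rw [← h.mul, inv_mul_cancel, h.one] at e1
      exact hsy e1
    · rintro x y z ⟨t, ht⟩ ⟨t', ht'⟩
      refine ⟨t' * t, ?_⟩
      rw [h.mul]
      exact htr (h.pres t' _ _ ht) ht'
  obtain ⟨S2, hS2⟩ : ∃ S2 : Setoid X, ∀ x y, S2.r x y ↔ ∃ t, act t x = y := by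
    refine ⟨⟨fun x y => ∃ t, act t x = y, ⟨?_, ?_, ?_⟩⟩, fun x y => Iff.rfl⟩
    · intro x
      exact ⟨1, h.one x⟩
    · rintro x y ⟨t, ht⟩
      exact ⟨t⁻¹, KCO_inv h ht⟩
    · rintro x y z ⟨t, ht⟩ ⟨t', ht'⟩
      exact ⟨t' * t, by rw [h.mul, ht, ht']⟩
  have hfix := h.fix
  choose θ0 h1 h2 h3 using hfix
  -- the classes
  obtain ⟨cl, hcl⟩ : ∃ cl : X → Quotient S1, cl = fun x => Quotient.mk S1 x := ⟨_, rfl⟩
  obtain ⟨ou, hou⟩ : ∃ ou : Quotient S1 → X, ∀ i, cl (ou i) = i := ⟨Quotient.out, fun i => by rw [hcl]; exact Quotient.out_eq i⟩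
  have hce : ∀ x x', cl x = cl x' ↔ ∃ t, r (act t x) x' := by
    intro x x'
    rw [hcl, ← hS1]
    exact Quotient.eq
  obtain ⟨θ, hθ⟩ : ∃ θ : Quotient S1 → X, ∀ i, θ i = θ0 (ou i) := ⟨fun i => θ0 (ou i), fun i => rfl⟩
  have hoθ : ∀ i, r (ou i) (θ i) := fun i => by rw [hθ]; exact h1 _
  have hclθ : ∀ i, cl (θ i) = i := by
    intro i
    rw [← hou i]
    refine (hce _ _).2 ⟨1, ?_⟩
    rw [h.one, hou i]
    exact hsy (hoθ i)
  have hfixθ : ∀ i t, r (θ i) (act t (θ i)) → act t (θ i) = θ i := by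
    intro i t ht
    have e1 : r (ou i) (act t (ou i)) := htr (hoθ i) (htr ht (h.pres t _ _ (hsy (hoθ i))))
    have e2 := h2 (ou i) t e1
    rw [hθ]; exact e2
  have hfree : ∀ i t y', r (θ i) y' → y' ≠ θ i → act t y' = y' → t ∈ K := by
    intro i t y' e1 e2 e3
    refine h3 (ou i) t y' (htr (hoθ i) e1) ?_ e3
    rw [← hθ]; exact e2
  -- the orbits
  obtain ⟨q, hq⟩ : ∃ q : X → Quotient S2, q = fun x => Quotient.mk S2 x := ⟨_, rfl⟩
  have hqe : ∀ x x', q x = q x' ↔ ∃ t, act t x = x' := by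
    intro x x'
    rw [hq, ← hS2]
    exact Quotient.eq
  obtain ⟨oq, hoq⟩ : ∃ oq : Quotient S2 → X, ∀ o, q (oq o) = o := ⟨Quotient.out, fun i => by rw [hq]; exact Quotient.out_eq i⟩
  have htt : ∀ x, ∃ t, r (θ (cl x)) (act t x) := by
    intro x
    have e1 : cl x = cl (θ (cl x)) := (hclθ (cl x)).symm
    obtain ⟨t, ht⟩ := (hce _ _).1 e1
    exact ⟨t, hsy ht⟩
  choose tt htt using htt
  have hact : ∀ t x, q (act t x) = q x := fun t x => ((hqe _ _).2 ⟨t, rfl⟩).symm
  have hactc : ∀ t x, cl (act t x) = cl x := fun t x => ((hce _ _).2 ⟨t, h.eqv.refl _⟩).symm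
  have hqc : ∀ x x', q x = q x' → cl x = cl x' := by
    intro x x' e
    obtain ⟨t, ht⟩ := (hqe _ _).1 e
    rw [← ht]
    exact (hactc t x).symm
  have hrc : ∀ x x', r x x' → cl x = cl x' := fun x x' e => (hce _ _).2 ⟨1, by rw [h.one]; exact e⟩
  obtain ⟨J, hJ⟩ : ∃ J : Type, J = {o : Quotient S2 // ∀ i, o ≠ q (θ i)} := ⟨_, rfl⟩
  obtain ⟨f, hf⟩ : ∃ f : {o : Quotient S2 // ∀ i, o ≠ q (θ i)} → Quotient S1, ∀ j, f j = cl (oq j.1) := ⟨fun j => cl (oq j.1), fun j => rfl⟩
  obtain ⟨y, hy⟩ : ∃ y : {o : Quotient S2 // ∀ i, o ≠ q (θ i)} → X, ∀ j, y j = act (tt (oq j.1)) (oq j.1) :=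
    ⟨fun j => act (tt (oq j.1)) (oq j.1), fun j => rfl⟩
  have hyq : ∀ j, q (y j) = j.1 := fun j => by rw [hy, hact, hoq]
  have hry : ∀ j, r (θ (f j)) (y j) := fun j => by rw [hf, hy]; exact htt _
  have hne : ∀ j i t, act t (y j) ≠ θ i := by
    intro j i t e
    apply j.2 i
    rw [← hyq j, ← e, hact]
  obtain ⟨s, hs⟩ : ∃ s : Quotient S1 → ℕ, ∀ i, s i = Nat.card {t : A // act t (θ i) = θ i} / Nat.card K := ⟨fun i => _, fun i => rfl⟩
  have hK : 0 < Nat.card K := Nat.card_pos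
  have hsub : ∀ i, K ≤ KCO_st h (θ i) := fun i t ht => h.triv t ht _
  have hst : ∀ i, Nat.card {t : A // act t (θ i) = θ i} = Nat.card (KCO_st h (θ i)) := fun i => rfl
  have hcs : ∀ i, Nat.card {t : A // act t (θ i) = θ i} = s i * Nat.card K := by
    intro i
    rw [hs, hst, Nat.div_mul_cancel (Subgroup.card_dvd_of_le (hsub i))]
  have hs1 : ∀ i, 1 ≤ s i := by
    intro i
    rcases Nat.eq_zero_or_pos (s i) with e | e
    · exfalso
      have e1 := hcs i
      rw [e, zero_mul] at e1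
      have e2 : 0 < Nat.card (KCO_st h (θ i)) := Nat.card_pos
      rw [← hst, e1] at e2
      exact lt_irrefl _ e2
    · exact e
  have hsb : ∀ i, s i ≤ b := by
    intro i
    have e1 : Nat.card {t : A // act t (θ i) = θ i} ≤ Nat.card {t : A // r (θ i) (act t (θ i))} := by
      refine Nat.card_le_card_of_injective (fun p : {t : A // act t (θ i) = θ i} => (⟨p.1, by rw [p.2]; exact h.eqv.refl _⟩ : {t : A // r (θ i) (act t (θ i))})) ?_
      intro p p' e
      have e' : (p : A) = (p' : A) := Subtype.mk.inj e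
      exact Subtype.ext e'
    have e2 := e1.trans (h.st (θ i))
    rw [hcs] at e2
    exact Nat.le_of_mul_le_mul_right e2 hK
  refine ⟨Quotient S1, {o : Quotient S2 // ∀ i, o ≠ q (θ i)}, cl, θ, f, y, s, inferInstance, inferInstance, hclθ, hce, hry, ?_, hne, ?_, ?_, hfixθ,
    hcs, hs1, ?_⟩
  · intro x
    by_cases hx : ∃ i, q x = q (θ i)
    · obtain ⟨i, hi⟩ := hx
      left
      have e1 : cl x = i := by rw [hqc _ _ hi, hclθ]
      rw [e1]
      exact (hqe _ _).1 hi
    · right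
      push Not at hx
      refine ⟨⟨q x, hx⟩, ?_⟩
      refine (hqe _ _).1 ?_
      rw [hyq]
  · intro j j' t e
    apply Subtype.ext
    rw [← hyq j, ← hyq j', ← e, hact]
  · intro j t e
    refine hfree (f j) t (y j) (hry j) ?_ e
    have e1 := hne j (f j) 1
    rwa [h.one] at e1
  · intro i i'
    have hb1 : 1 ≤ b := (hs1 i).trans (hsb i)
    have := Fintype.ofFinite X
    have := Fintype.ofFinite {o : Quotient S2 // ∀ i, o ≠ q (θ i)}
    obtain ⟨O, hO⟩ : ∃ O : Finset X, O = (Finset.univ.filter fun x => r (θ i) x).erase (θ i) := ⟨_, rfl⟩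
    have hOmem : ∀ x, x ∈ O ↔ x ≠ θ i ∧ r (θ i) x := by
      intro x
      rw [hO, Finset.mem_erase, Finset.mem_filter]
      simp
    have hOcard : b * (b + 3) ≤ O.card := by
      have e1 := h.sz (θ i)
      rw [Nat.card_eq_fintype_card, Fintype.card_subtype] at e1
      have e2 : θ i ∈ Finset.univ.filter fun x => r (θ i) x := Finset.mem_filter.2 ⟨Finset.mem_univ _, h.eqv.refl _⟩
      rw [hO, Finset.card_erase_of_mem e2]
      omega
    have hfib : ∀ o ∈ O.image q, (O.filter fun x => q x = o).card ≤ b := by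
      intro o ho
      obtain ⟨y0, hy0, hyo⟩ := Finset.mem_image.1 ho
      have e0 := ((hOmem y0).1 hy0).2
      have e1 := KCO_fib h (θ i) y0 e0
      rw [Nat.card_eq_fintype_card, Fintype.card_subtype] at e1
      refine le_trans (Finset.card_le_card ?_) e1
      intro x hx
      obtain ⟨hx1, hx2⟩ := Finset.mem_filter.1 hx
      refine Finset.mem_filter.2 ⟨Finset.mem_univ _, ((hOmem x).1 hx1).2, ?_⟩
      exact (hqe _ _).1 (by rw [hyo, hx2])
    have hmul := Finset.card_le_mul_card_image (s := O) (f := q) b hfib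
    have himg : (O.image q).card ≤ Nat.card {j // f j = i} := by
      rw [Nat.card_eq_fintype_card, Fintype.card_subtype]
      have e1 : O.image q ⊆ (Finset.univ.filter fun j => f j = i).image Subtype.val := by
        intro o ho
        obtain ⟨x, hx, hxo⟩ := Finset.mem_image.1 ho
        obtain ⟨hx1, hx2⟩ := (hOmem x).1 hx
        have hclx : cl x = i := by rw [← hrc _ _ hx2, hclθ]
        have hno : ∀ i', o ≠ q (θ i') := by
          intro i' e
          rw [← hxo] at e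
          have e2 : i' = i := by
            have e3 := hqc _ _ e
            rw [hclθ, hclx] at e3
            exact e3.symm
          rw [e2] at e
          obtain ⟨t, ht⟩ := (hqe _ _).1 e.symm
          have e4 : act t (θ i) = θ i := hfixθ i t (by rw [ht]; exact hx2)
          exact hx1 (ht.symm.trans e4)
        refine Finset.mem_image.2 ⟨⟨o, hno⟩, Finset.mem_filter.2 ⟨Finset.mem_univ _, ?_⟩, rfl⟩
        rw [hf, ← hclx]
        exact hqc _ _ (by rw [hoq, hxo])
      exact (Finset.card_le_card e1).trans Finset.card_image_le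
    have e5 : b * (b + 3) ≤ b * Nat.card {j // f j = i} := hOcard.trans (hmul.trans (Nat.mul_le_mul_left b himg))
    have e6 : b + 3 ≤ Nat.card {j // f j = i} := Nat.le_of_mul_le_mul_left e5 (by omega)
    have e7 := hsb i'
    omega

end Pool.Agent.ND

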